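import Pool.Agent.helper70.RK.Spec

/-! # rk:MNS: minimal normal subgroups -/

set_option autoImplicit false

namespace RK

open QS (Lef EAb)
open LEQ (Stb Nz XS Ls Mb FS mem_FS)

theorem MNS_mul {G : Type} [Group G] (g h : G) (S : Subgroup G) : Cj (g * h) S = Cj g (Cj h S) := by
  ext x
  rw [mem_Cj, mem_Cj, mem_Cj]
  have e : (g * h)⁻¹ * x * (g * h) = h⁻¹ * (g⁻¹ * x * g) * h := by group
  rw [e]

theorem MNS_one {G : Type} [Group G] (S : Subgroup G) : Cj 1 S = S := by
  ext x
  rw [mem_Cj]
  simp

theorem MNS_card {G : Type} [Group G] (g : G) (S : Subgroup G) : Nat.card (Cj g S) = Nat.card S :=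
  Subgroup.card_map_of_injective (MulAut.conj g).injective

theorem MNS_mono {G : Type} [Group G] (g : G) {S T : Subgroup G} (h : S ≤ T) : Cj g S ≤ Cj g T := by
  intro x hx
  rw [mem_Cj] at hx ⊢
  exact h hx

theorem MNS_normal {G : Type} [Group G] (N : Subgroup G) (hN : N.Normal) (g : G) : Cj g N = N := by
  ext x
  rw [mem_Cj]
  constructor
  · intro h
    have h1 := hN.conj_mem _ h g
    have e : g * (g⁻¹ * x * g) * g⁻¹ = x := by group
    rwa [e] at h1
  · intro h
    have h1 := hN.conj_mem _ h g⁻¹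
    rwa [inv_inv] at h1

/-- nontrivial, inside `N` and normalised by `N` -/
def MNS_P {G : Type} [Group G] (N S : Subgroup G) : Prop := S ≠ ⊥ ∧ S ≤ N ∧ ∀ v ∈ N, Cj v S = S

theorem MNS_conj {G : Type} [Group G] (N S : Subgroup G) (hN : N.Normal) (hS : MNS_P N S) (g : G) :
    MNS_P N (Cj g S) := by
  refine ⟨?_, ?_, ?_⟩
  · intro h
    apply hS.1
    have h1 : Cj g⁻¹ (Cj g S) = Cj g⁻¹ (⊥ : Subgroup G) := by rw [h]
    rw [← MNS_mul, inv_mul_cancel, MNS_one] at h1
    rw [h1]
    unfold Cj
    exact Subgroup.map_bot _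
  · have h1 := MNS_mono g hS.2.1
    rwa [MNS_normal N hN g] at h1
  · intro v hv
    have h1 : g⁻¹ * v * g ∈ N := by
      have := hN.conj_mem v hv g⁻¹
      rwa [inv_inv] at this
    rw [← MNS_mul, show v * g = g * (g⁻¹ * v * g) by group, MNS_mul, hS.2.2 _ h1]

theorem MNS : MNS_stmt := by
  classical
  intro G _ _ N hN hNb hmin hna
  have hPN : MNS_P N N := ⟨hNb, le_rfl, fun v _ => MNS_normal N hN v⟩
  have hex : ∃ n, ∃ S : Subgroup G, MNS_P N S ∧ Nat.card S = n := ⟨_, N, hPN, rfl⟩
  obtain ⟨S, hS, hSn⟩ := Nat.find_spec hex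
  have hle : ∀ T : Subgroup G, MNS_P N T → Nat.card S ≤ Nat.card T := by
    intro T hT
    rw [hSn]
    exact Nat.find_min' hex ⟨T, hT, rfl⟩
  have hcj := MNS_conj N S hN hS
  -- two different conjugates meet trivially and commute
  have hcm : ∀ g : G, Cj g S ≠ S → ∀ x ∈ S, ∀ y ∈ Cj g S, x * y = y * x := by
    intro g hg x hx y hy
    have hinf : S ⊓ Cj g S = ⊥ := by
      by_contra hne
      have hP : MNS_P N (S ⊓ Cj g S) := by
        refine ⟨hne, inf_le_left.trans hS.2.1, ?_⟩
        intro v hv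
        ext z
        rw [mem_Cj, Subgroup.mem_inf, Subgroup.mem_inf, ← mem_Cj, ← mem_Cj, hS.2.2 v hv, (hcj g).2.2 v hv]
      have h1 : S ⊓ Cj g S = S := Subgroup.eq_of_le_of_card_ge inf_le_left (hle _ hP)
      have h2 : S ≤ Cj g S := inf_eq_left.1 h1
      exact hg (Subgroup.eq_of_le_of_card_ge h2 (MNS_card g S).le).symm
    have h3 : x * y * x⁻¹ * y⁻¹ ∈ S ⊓ Cj g S := by
      rw [Subgroup.mem_inf]
      constructor
      · have h4 : y * x⁻¹ * y⁻¹ ∈ S := by
          have h5 := hS.2.2 y⁻¹ (N.inv_mem ((hcj g).2.1 hy))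
          have h6 : x⁻¹ ∈ Cj y⁻¹ S := by
            rw [h5]
            exact S.inv_mem hx
          rw [mem_Cj, inv_inv] at h6
          exact h6
        have e : x * y * x⁻¹ * y⁻¹ = x * (y * x⁻¹ * y⁻¹) := by group
        rw [e]
        exact S.mul_mem hx h4
      · have h4 : x * y * x⁻¹ ∈ Cj g S := by
          have h5 := (hcj g).2.2 x⁻¹ (N.inv_mem (hS.2.1 hx))
          have h6 : y ∈ Cj x⁻¹ (Cj g S) := by rw [h5]; exact hy
          rw [mem_Cj, inv_inv] at h6
          exact h6
        exact (Cj g S).mul_mem h4 ((Cj g S).inv_mem hy)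
    rw [hinf, Subgroup.mem_bot] at h3
    have h7 : x * y * (y * x)⁻¹ = 1 := by
      rw [← h3]
      group
    exact mul_inv_eq_one.1 h7
  -- generation
  have hgen : ∀ T : Subgroup G, (∀ g : G, Cj g S ≤ T) → N ≤ T := by
    intro T hT
    have hMn : (⨆ g : G, Cj g S).Normal := by
      refine ⟨fun x hx g => ?_⟩
      have h1 : (⨆ h : G, Cj h S) ≤ Cj g⁻¹ (⨆ h : G, Cj h S) := by
        apply iSup_le
        intro h z hz
        rw [mem_Cj, inv_inv]
        have h2 : g * z * g⁻¹ ∈ Cj (g * h) S := by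
          rw [mem_Cj] at hz ⊢
          have e : (g * h)⁻¹ * (g * z * g⁻¹) * (g * h) = h⁻¹ * z * h := by group
          rwa [e]
        exact (le_iSup (fun h : G => Cj h S) (g * h)) h2
      have h3 := h1 hx
      rw [mem_Cj, inv_inv] at h3
      exact h3
    have hMN : (⨆ g : G, Cj g S) ≤ N := iSup_le fun g => (hcj g).2.1
    have hSM : S ≤ ⨆ g : G, Cj g S := by
      have h1 := le_iSup (fun h : G => Cj h S) 1
      rw [MNS_one] at h1
      exact h1
    rcases hmin _ hMn hMN with h | h
    · rw [h] at hSM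
      exact absurd (le_bot_iff.1 hSM) hS.1
    · rw [← h]
      exact iSup_le hT
  refine ⟨S, hN, ⟨?_, ?_⟩, hS.2.1, hS.2.2, hcm, hgen⟩
  · -- simple
    have hnt : Nontrivial S := (Subgroup.nontrivial_iff_ne_bot S).2 hS.1
    refine ⟨fun H hH => ?_⟩
    by_cases hHb : H = ⊥
    · exact Or.inl hHb
    · right
      set T : Subgroup G := H.map S.subtype with hT
      have hTS : T ≤ S := by
        rw [hT]
        exact Subgroup.map_subtype_le H
      have hTb : T ≠ ⊥ := by
        intro h
        apply hHb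
        rw [hT, Subgroup.map_eq_bot_iff_of_injective _ (Subgroup.subtype_injective S)] at h
        exact h
      have hnorm : ∀ g : G, Cj g S ≤ Subgroup.normalizer (T : Set G) := by
        intro g v hv
        rw [Subgroup.mem_normalizer_iff]
        by_cases hg : Cj g S = S
        · rw [hg] at hv
          intro z
          constructor
          · intro hz
            rw [hT, Subgroup.mem_map] at hz
            obtain ⟨w, hw, rfl⟩ := hz
            exact Subgroup.mem_map.2 ⟨⟨v, hv⟩ * w * ⟨v, hv⟩⁻¹, hH.conj_mem w hw ⟨v, hv⟩, rfl⟩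
          · intro hz
            rw [hT, Subgroup.mem_map] at hz
            obtain ⟨w, hw, hwz⟩ := hz
            refine Subgroup.mem_map.2 ⟨⟨v, hv⟩⁻¹ * w * (⟨v, hv⟩⁻¹)⁻¹, hH.conj_mem w hw ⟨v, hv⟩⁻¹, ?_⟩
            have h1 : (w : G) = v * z * v⁻¹ := hwz
            change v⁻¹ * (w : G) * (v⁻¹)⁻¹ = z
            rw [h1]
            group
        · have hc : ∀ z ∈ T, v * z * v⁻¹ = z := by
            intro z hz
            have h1 := hcm g hg z (hTS hz) v hv
            rw [← h1]
            group
          intro z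
          constructor
          · intro hz
            rw [hc z hz]
            exact hz
          · intro hz
            have h1 := hc _ hz
            have h2 : v * z * v⁻¹ = z := by
              have h3 : v * (v * z * v⁻¹) * v⁻¹ = v * z * v⁻¹ := h1
              have h4 : v * z * v⁻¹ = z := by
                have h5 := congrArg (fun w => v⁻¹ * w * v) h3
                have e1 : v⁻¹ * (v * (v * z * v⁻¹) * v⁻¹) * v = v * z * v⁻¹ := by group
                have e2 : v⁻¹ * (v * z * v⁻¹) * v = z := by group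
                rw [← e1]
                exact h5.trans e2
              exact h4
            rw [h2] at hz
            exact hz
      have hNT := hgen _ hnorm
      have hPT : MNS_P N T := by
        refine ⟨hTb, hTS.trans hS.2.1, ?_⟩
        intro v hv
        ext z
        rw [mem_Cj]
        have h1 := Subgroup.mem_normalizer_iff.1 (hNT (N.inv_mem hv)) z
        rw [inv_inv] at h1
        exact h1.symm
      have hTe : T = S := Subgroup.eq_of_le_of_card_ge hTS (hle T hPT)
      rw [eq_top_iff]
      intro w _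
      have h1 : (w : G) ∈ T := by
        rw [hTe]
        exact w.2
      rw [hT, Subgroup.mem_map] at h1
      obtain ⟨w', hw', hww⟩ := h1
      have h2 : w' = w := Subtype.ext hww
      rw [← h2]
      exact hw'
  · -- not commutative
    by_contra hcon
    push Not at hcon
    have hall : ∀ g h : G, ∀ x ∈ Cj g S, ∀ y ∈ Cj h S, x * y = y * x := by
      intro g h x hx y hy
      rw [mem_Cj] at hx
      have hy' : g⁻¹ * y * g ∈ Cj (g⁻¹ * h) S := by
        rw [mem_Cj] at hy ⊢
        have e : (g⁻¹ * h)⁻¹ * (g⁻¹ * y * g) * (g⁻¹ * h) = h⁻¹ * y * h := by group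
        rwa [e]
      have h1 : (g⁻¹ * x * g) * (g⁻¹ * y * g) = (g⁻¹ * y * g) * (g⁻¹ * x * g) := by
        by_cases hg : Cj (g⁻¹ * h) S = S
        · rw [hg] at hy'
          exact hcon _ hx _ hy'
        · exact hcm _ hg _ hx _ hy'
      have h2 := congrArg (fun w => g * w * g⁻¹) h1
      have e1 : g * ((g⁻¹ * x * g) * (g⁻¹ * y * g)) * g⁻¹ = x * y := by group
      have e2 : g * ((g⁻¹ * y * g) * (g⁻¹ * x * g)) * g⁻¹ = y * x := by group
      rw [← e1, ← e2]
      exact h2
    have h1 : N ≤ Subgroup.centralizer (⋃ h : G, (Cj h S : Set G)) := by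
      apply hgen
      intro g x hx
      rw [Subgroup.mem_centralizer_iff]
      intro y hy
      rw [Set.mem_iUnion] at hy
      obtain ⟨h, hy⟩ := hy
      exact (hall g h x hx y hy).symm
    have h2 : N ≤ Subgroup.centralizer (N : Set G) := by
      apply hgen
      intro g x hx
      rw [Subgroup.mem_centralizer_iff]
      intro y hy
      have h3 := Subgroup.mem_centralizer_iff.1 (h1 hy) x (Set.mem_iUnion.2 ⟨g, hx⟩)
      exact h3.symm
    obtain ⟨x, hx, y, hy, hxy⟩ := hna
    exact hxy (Subgroup.mem_centralizer_iff.1 (h2 hy) x hx)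

end RK
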